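import Pool.Agent.Helper25.DI.Defs
import Pool.Agent.Helper8.DI.B0

/-!
# MP_506470_co, module DI B1
-/

namespace SetHom

variable {V : Type} {G : SimpleGraph V}

theorem star_transport {s : ℕ} {Q Q' : Finset V} (φ : G ≃g G) (h : φ '' (Q : Set V) = Q')
    (hQ : ∃ x ∈ Q, ∀ p ∉ Q, ∀ T ⊆ Q, x ∉ T → s + 1 ≤ T.card → Full G p T → G.Adj p x) :
    ∃ x ∈ Q', ∀ p ∉ Q', ∀ T ⊆ Q', x ∉ T → s + 1 ≤ T.card → Full G p T → G.Adj p x := by
  classical
  obtain ⟨x, hx, hQ⟩ := hQ
  have hmem : ∀ z, z ∈ Q ↔ φ z ∈ Q' := by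
    intro z
    have h1 : φ z ∈ φ '' (Q : Set V) ↔ z ∈ (Q : Set V) := φ.injective.mem_set_image
    rw [h] at h1
    simpa using h1.symm
  refine ⟨φ x, (hmem x).1 hx, ?_⟩
  intro p hp T hT hxT hTc hf
  have hsym : ∀ z, φ (φ.symm z) = z := fun z => φ.apply_symm_apply z
  have h1 := hQ (φ.symm p) (by rw [hmem, hsym]; exact hp) (T.map φ.symm.toEquiv.toEmbedding)
    (by
      intro z hz
      obtain ⟨y, hy, rfl⟩ := Finset.mem_map.1 hz
      rw [hmem]
      have : φ (φ.symm.toEquiv.toEmbedding y) = y := φ.apply_symm_apply y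
      rw [this]
      exact hT hy)
    (by
      intro hz
      obtain ⟨y, hy, hy2⟩ := Finset.mem_map.1 hz
      have : φ (φ.symm.toEquiv.toEmbedding y) = y := φ.apply_symm_apply y
      rw [hy2] at this
      exact hxT (this ▸ hy))
    (by rwa [Finset.card_map])
    (by
      intro z hz
      obtain ⟨y, hy, rfl⟩ := Finset.mem_map.1 hz
      apply φ.map_adj_iff.1
      have : φ (φ.symm.toEquiv.toEmbedding y) = y := φ.apply_symm_apply y
      rw [this, hsym]
      exact hf y hy)
  have h2 := φ.map_adj_iff.2 h1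
  rwa [hsym] at h2

theorem L1_star (hs : SetHomogeneous G) (hi : ∀ n : ℕ, ∃ A : Finset V, Indep G A ∧ A.card = n)
    {s : ℕ} (hs2 : 2 ≤ s) (hb : ∀ (v : V) (A : Finset V), Indep G A → Full G v A → A.card ≤ s)
    (hex : ∃ (v : V) (A : Finset V), Indep G A ∧ Full G v A ∧ A.card = s) {Q : Finset V}
    (hQ : Clq G Q) (hq : s + 2 ≤ Q.card) :
    ∃ x ∈ Q, ∀ p ∉ Q, ∀ T ⊆ Q, x ∉ T → s + 1 ≤ T.card → Full G p T → G.Adj p x := by
  classical
  obtain ⟨R, hR⟩ := ramsey_fin (max (Q.card - 1) (s + 1))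
  obtain ⟨Om, hOm, hOmc⟩ := hi (R * (s - 1) + 1)
  obtain ⟨e⟩ : Nonempty (Option (Fin R × Fin (s - 1)) ≃ Om) := Fintype.card_eq.1 (by simp [hOmc])
  let w : Option (Fin R × Fin (s - 1)) → V := fun a => (e a : V)
  have hwinj : Function.Injective w := fun a b hab => e.injective (Subtype.ext hab)
  have hwOm : ∀ a, w a ∈ Om := fun a => (e a).2
  have hwi : ∀ a b, ¬ G.Adj (w a) (w b) := fun a b => hOm _ (hwOm a) _ (hwOm b)
  let x : V := w none
  let th : Fin R → Finset V := fun j => Finset.univ.image (fun i : Fin (s - 1) => w (some (j, i)))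
  have hthm : ∀ j z, z ∈ th j ↔ ∃ i, w (some (j, i)) = z := by
    intro j z
    simp [th]
  have hthOm : ∀ j, ∀ z ∈ th j, z ∈ Om := by
    intro j z hz
    obtain ⟨i, rfl⟩ := (hthm j z).1 hz
    exact hwOm _
  have hthc : ∀ j, (th j).card = s - 1 := by
    intro j
    rw [Finset.card_image_of_injective _ (fun a b hab => ?_), Finset.card_fin]
    have := hwinj hab
    simpa using this
  have hxth : ∀ j, x ∉ th j := by
    intro j hx
    obtain ⟨i, hi⟩ := (hthm j x).1 hx
    have := hwinj hi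
    simp at this
  have hthd : ∀ j j' z, z ∈ th j → z ∈ th j' → j = j' := by
    intro j j' z hz hz'
    obtain ⟨i, rfl⟩ := (hthm j z).1 hz
    obtain ⟨i', hi'⟩ := (hthm j' _).1 hz'
    have := hwinj hi'
    simp only [Option.some.injEq, Prod.mk.injEq] at this
    exact this.1.symm
  have hxO : x ∈ Om := hwOm _
  have hIsub : ∀ A : Finset V, A ⊆ Om → Indep G A := fun A hA => Indep.sub hOm hA
  have hins : ∀ j, insert x (th j) ⊆ Om := by
    intro j z hz
    rcases Finset.mem_insert.1 hz with rfl | hz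
    · exact hxO
    · exact hthOm j z hz
  have hinsc : ∀ j, (insert x (th j)).card = s := by
    intro j
    rw [Finset.card_insert_of_notMem (hxth j), hthc]
    omega
  have hu : ∀ j, ∃ u, Full G u (insert x (th j)) := by
    intro j
    obtain ⟨v, A, hA, hvA, hAc⟩ := hex
    obtain ⟨φ, hφ⟩ := indep_trans hs hA (hIsub _ (hins j)) (hAc.trans (hinsc j).symm)
    refine ⟨φ v, ?_⟩
    intro a ha
    have : a ∈ φ '' (A : Set V) := by
      rw [hφ]
      exact ha
    obtain ⟨b, hb, rfl⟩ := this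
    exact φ.map_adj_iff.2 (hvA b hb)
  choose u hu using hu
  -- neighbours of `u j`
  have hnb : ∀ j z, z ∉ insert x (th j) → G.Adj (u j) z → ∃ y ∈ insert x (th j), G.Adj z y := by
    intro j z hz hadj
    by_contra hcon
    push Not at hcon
    have hI : Indep G (insert z (insert x (th j))) := by
      intro a ha b hb'
      rcases Finset.mem_insert.1 ha with h1 | h1 <;> rcases Finset.mem_insert.1 hb' with h2 | h2
      · rw [h1, h2]
        exact G.irrefl
      · rw [h1]
        exact hcon b h2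
      · rw [h2]
        exact fun e => hcon a h1 e.symm
      · exact hIsub _ (hins j) a h1 b h2
    have hf : Full G (u j) (insert z (insert x (th j))) := by
      intro a ha
      rcases Finset.mem_insert.1 ha with rfl | ha
      · exact hadj
      · exact hu j a ha
    have := hb _ _ hI hf
    rw [Finset.card_insert_of_notMem hz, hinsc] at this
    omega
  have huinj : Function.Injective u := by
    intro j j' hjj
    by_contra hne
    have hi0 : 0 < s - 1 := by omega
    let z := w (some (j', ⟨0, hi0⟩))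
    have hz : z ∈ th j' := (hthm _ _).2 ⟨_, rfl⟩
    have hz1 : z ∉ insert x (th j) := by
      intro hz2
      rcases Finset.mem_insert.1 hz2 with h1 | h1
      · exact hxth j' (h1 ▸ hz)
      · exact hne (hthd _ _ _ h1 hz)
    obtain ⟨y, hy, hzy⟩ := hnb j z hz1 (by
      rw [hjj]
      exact hu j' z (Finset.mem_insert_of_mem hz))
    exact hOm _ (hthOm _ _ hz) _ (hins j hy) hzy
  have hux : ∀ j, G.Adj (u j) x := fun j => hu j x (Finset.mem_insert_self _ _)
  -- Ramsey
  obtain ⟨f, hfm, hfR, hf⟩ := hR (fun i j => ∃ (hi : i < R) (hj : j < R),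
    G.Adj (u ⟨i, hi⟩) (u ⟨j, hj⟩))
  let g : Fin (max (Q.card - 1) (s + 1)) → Fin R := fun i => ⟨f i, hfR i⟩
  have hginj : Function.Injective g := by
    intro i j hij
    have : f i = f j := congrArg Fin.val hij
    exact hfm.injective this
  rcases hf with hf | hf
  swap
  · exfalso
    let A : Finset V := Finset.univ.image (fun i : Fin (s + 1) =>
      u (g (Fin.castLE (le_max_right _ _) i)))
    have hAc : A.card = s + 1 := by
      have h0 := Finset.card_image_of_injective (Finset.univ : Finset (Fin (s + 1)))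
        (f := fun i : Fin (s + 1) => u (g (Fin.castLE (le_max_right (Q.card - 1) (s + 1)) i)))
        (huinj.comp (hginj.comp (Fin.castLE_injective _)))
      rw [Finset.card_fin] at h0
      exact h0
    have hno : ∀ i j, ¬ G.Adj (u (g i)) (u (g j)) := by
      intro i j hadj
      rcases lt_trichotomy i j with h | h | h
      · exact hf i j h ⟨hfR i, hfR j, hadj⟩
      · subst h
        exact G.irrefl hadj
      · exact hf j i h ⟨hfR j, hfR i, hadj.symm⟩
    have hAi : Indep G A := by
      intro a ha b hb'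
      obtain ⟨i, -, rfl⟩ := Finset.mem_image.1 ha
      obtain ⟨j, -, rfl⟩ := Finset.mem_image.1 hb'
      exact hno _ _
    have := hb x A hAi (by
      intro a ha
      obtain ⟨i, -, rfl⟩ := Finset.mem_image.1 ha
      exact (hux _).symm)
    omega
  have hyes : ∀ i j, i ≠ j → G.Adj (u (g i)) (u (g j)) := by
    intro i j hij
    rcases lt_or_gt_of_ne hij with h | h
    · obtain ⟨_, _, h1⟩ := hf i j h
      exact h1
    · obtain ⟨_, _, h1⟩ := hf j i h
      exact h1.symm
  let B : Finset V := Finset.univ.image (fun i : Fin (Q.card - 1) =>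
      u (g (Fin.castLE (le_max_left _ _) i)))
  have hBm : ∀ z ∈ B, ∃ j, u (g j) = z := by
    intro z hz
    obtain ⟨i, -, rfl⟩ := Finset.mem_image.1 hz
    exact ⟨_, rfl⟩
  have hxB : x ∉ B := by
    intro hx
    obtain ⟨j, hj⟩ := hBm x hx
    have := hux (g j)
    rw [hj] at this
    exact G.irrefl this
  have hBc : B.card = Q.card - 1 := by
    have h0 := Finset.card_image_of_injective (Finset.univ : Finset (Fin (Q.card - 1)))
      (f := fun i : Fin (Q.card - 1) => u (g (Fin.castLE (le_max_left (Q.card - 1) (s + 1)) i)))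
      (huinj.comp (hginj.comp (Fin.castLE_injective _)))
    rw [Finset.card_fin] at h0
    exact h0
  have hB : Clq G B := by
    intro a ha b hb' hab
    obtain ⟨i, rfl⟩ := hBm a ha
    obtain ⟨j, rfl⟩ := hBm b hb'
    exact hyes _ _ (fun e => hab (by rw [e]))
  have hBx : Clq G (insert x B) := by
    intro a ha b hb' hab
    rcases Finset.mem_insert.1 ha with rfl | ha <;> rcases Finset.mem_insert.1 hb' with rfl | hb'
    · exact absurd rfl hab
    · obtain ⟨j, rfl⟩ := hBm b hb'
      exact (hux _).symm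
    · obtain ⟨j, rfl⟩ := hBm a ha
      exact hux _
    · exact hB a ha b hb' hab
  have hBxc : (insert x B).card = Q.card := by
    rw [Finset.card_insert_of_notMem hxB, hBc]
    omega
  obtain ⟨φ, hφ⟩ := clq_trans hs hBx hQ hBxc
  refine star_transport φ hφ ⟨x, Finset.mem_insert_self _ _, ?_⟩
  intro p hp T hT hxT hTc hfull
  by_contra hpx
  have hpx' : p ≠ x := by
    rintro rfl
    exact hp (Finset.mem_insert_self _ _)
  have hTB : ∀ z ∈ T, ∃ j, u j = z := by
    intro z hz
    rcases Finset.mem_insert.1 (hT hz) with rfl | h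
    · exact absurd hz hxT
    · obtain ⟨j, hj⟩ := hBm z h
      exact ⟨_, hj⟩
  have h1 : ∀ j, u j ∈ T → p ∉ th j → ∃ z ∈ th j, G.Adj p z := by
    intro j hj hpj
    obtain ⟨y, hy, hpy⟩ := hnb j p (by
      rw [Finset.mem_insert]
      rintro (h | h)
      · exact hpx' h
      · exact hpj h) (hfull _ hj).symm
    rcases Finset.mem_insert.1 hy with rfl | hy
    · exact absurd hpy hpx
    · exact ⟨y, hy, hpy⟩
  have h2 : ∀ j, u j ∈ T → p ∉ th j := by
    intro j hj hpj
    obtain ⟨t', ht', hne⟩ := Finset.exists_mem_ne (s := T) (by omega) (u j)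
    obtain ⟨j', rfl⟩ := hTB t' ht'
    have hjj : j' ≠ j := fun e => hne (by rw [e])
    obtain ⟨z, hz, hpz⟩ := h1 j' ht' (fun h => hjj (hthd _ _ _ h hpj))
    exact hOm _ (hthOm _ _ hpj) _ (hthOm _ _ hz) hpz
  have h3 : ∀ t : T, ∃ (j : Fin R) (z : V), u j = t ∧ z ∈ th j ∧ G.Adj p z := by
    rintro ⟨t, ht⟩
    obtain ⟨j, hj⟩ := hTB t ht
    obtain ⟨z, hz, hpz⟩ := h1 j (hj ▸ ht) (h2 j (hj ▸ ht))
    exact ⟨j, z, hj, hz, hpz⟩
  choose J Z hJ hZ hpZ using h3
  have hZinj : Function.Injective Z := by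
    intro t t' htt
    have h4 : J t = J t' := hthd _ _ (Z t) (hZ t) (by rw [htt]; exact hZ t')
    apply Subtype.ext
    rw [← hJ t, ← hJ t', h4]
  have h5 := hb p (Finset.univ.image Z) (by
    intro a ha b hb'
    obtain ⟨t, -, rfl⟩ := Finset.mem_image.1 ha
    obtain ⟨t', -, rfl⟩ := Finset.mem_image.1 hb'
    exact hOm _ (hthOm _ _ (hZ t)) _ (hthOm _ _ (hZ t'))) (by
    intro a ha
    obtain ⟨t, -, rfl⟩ := Finset.mem_image.1 ha
    exact hpZ t)
  rw [Finset.card_image_of_injective _ hZinj, Finset.card_univ, Fintype.card_coe] at h5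
  omega

end SetHom
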