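import Pool.Agent.Helper25.DI.Defs

/-!
# MP_506470_co, module DI C1
-/

namespace SetHom

variable {V : Type} {G : SimpleGraph V}

theorem gap_FC {n k : ℕ} (hk : k ≤ n) (h : ¬ ∃ (K T : Finset V) (v : V), Clq G K ∧ K.card = n ∧
    v ∉ K ∧ T ⊆ K ∧ T.card = k ∧ ∀ x ∈ K, (G.Adj v x ↔ x ∈ T)) : FC G n := by
  classical
  intro K hK v hv
  by_contra hcon
  push Not at hcon
  obtain ⟨⟨T1, hT1, hf1, hc1⟩, T2, hT2, hf2, hc2⟩ := hcon
  obtain ⟨A, hA, hAc⟩ := Finset.exists_subset_card_eq (s := T1) (n := k) (by omega)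
  obtain ⟨B, hB, hBc⟩ := Finset.exists_subset_card_eq (s := T2) (n := n - k) (by omega)
  have hd : Disjoint A B := by
    rw [Finset.disjoint_left]
    intro x hx hx2
    exact hf2 x (hB hx2) (hf1 x (hA hx))
  refine h ⟨A ∪ B, A, v, hK.mono ?_, ?_, ?_, Finset.subset_union_left, hAc, ?_⟩
  · exact Finset.union_subset (hA.trans hT1) (hB.trans hT2)
  · rw [Finset.card_union_of_disjoint hd, hAc, hBc]
    omega
  · intro hv2
    rcases Finset.mem_union.1 hv2 with h1 | h1
    · exact hv (hT1 (hA h1))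
    · exact hv (hT2 (hB h1))
  · intro x hx
    rcases Finset.mem_union.1 hx with h1 | h1
    · exact iff_of_true (hf1 x (hA h1)) h1
    · exact iff_of_false (hf2 x (hB h1)) (fun h2 => (Finset.disjoint_left.1 hd h2 h1))

theorem EL_self {t : ℕ} {K : Finset V} (hK : Clq G K) : (K : Set V) ⊆ EL G t K := by
  intro v hv T hT hn
  have h1 : T ⊆ {v} := by
    intro x hx
    rw [Finset.mem_singleton]
    by_contra hne
    exact hn x hx (hK v hv x (hT hx) (fun e => hne e.symm))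
  have h2 := Finset.card_le_card h1
  rw [Finset.card_singleton] at h2
  omega

theorem EL_not {t : ℕ} (hF : FC G t) {K : Finset V} (hK : Clq G K) {v : V}
    (hv : v ∉ EL G t K) : v ∉ K ∧ ∀ T ⊆ K, Full G v T → T.card ≤ t := by
  have hvK : v ∉ K := fun e => hv (EL_self hK e)
  refine ⟨hvK, ?_⟩
  rcases hF K hK v hvK with h | h
  · exact h
  · exact absurd (fun T hT hn => (h T hT hn).trans (Nat.le_succ t)) hv

theorem EL_mono {t : ℕ} (hF : FC G t) {K K' : Finset V} (hK : Clq G K) (hKK : K' ⊆ K)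
    (hc : 2 * t + 3 ≤ K'.card) : EL G t K' = EL G t K := by
  classical
  apply Set.Subset.antisymm
  · intro v hv
    by_contra hn
    obtain ⟨hvK, hT⟩ := EL_not hF hK hn
    have h1 := hT (K'.filter (fun x => G.Adj v x)) ((Finset.filter_subset _ _).trans hKK)
      (fun a ha => (Finset.mem_filter.1 ha).2)
    have h2 := hv (K'.filter (fun x => ¬ G.Adj v x)) (Finset.filter_subset _ _)
      (fun a ha => (Finset.mem_filter.1 ha).2)
    have h3 := Finset.card_filter_add_card_filter_not (s := K') (fun x => G.Adj v x)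
    omega
  · intro v hv T hT hn
    exact hv T (hT.trans hKK) hn

theorem EL_common {t : ℕ} {K : Finset V} (P : Finset V) (hP : (P : Set V) ⊆ EL G t K) :
    ∃ K' ⊆ K, (∀ p ∈ P, Full G p K') ∧ K.card ≤ K'.card + P.card * (t + 1) := by
  classical
  refine ⟨K.filter (fun k => ∀ p ∈ P, G.Adj p k), Finset.filter_subset _ _, ?_, ?_⟩
  · intro p hp a ha
    exact (Finset.mem_filter.1 ha).2 p hp
  · have h1 : K ⊆ K.filter (fun k => ∀ p ∈ P, G.Adj p k) ∪
        P.biUnion (fun p => K.filter (fun k => ¬ G.Adj p k)) := by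
      intro k hk
      by_cases h : ∀ p ∈ P, G.Adj p k
      · exact Finset.mem_union_left _ (Finset.mem_filter.2 ⟨hk, h⟩)
      · push Not at h
        obtain ⟨p, hp, hpk⟩ := h
        exact Finset.mem_union_right _ (Finset.mem_biUnion.2 ⟨p, hp, Finset.mem_filter.2 ⟨hk, hpk⟩⟩)
    have h2 : (P.biUnion (fun p => K.filter (fun k => ¬ G.Adj p k))).card ≤ P.card * (t + 1) := by
      apply Finset.card_biUnion_le_card_mul
      intro p hp
      exact hP hp _ (Finset.filter_subset _ _) (fun x hx => (Finset.mem_filter.1 hx).2)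
    have h3 := (Finset.card_le_card h1).trans (Finset.card_union_le _ _)
    omega

theorem lineC_ex (hs : SetHomogeneous G) (hcl : ∀ n : ℕ, ∃ A : Finset V, Clq G A ∧ A.card = n)
    (t : ℕ) {Q : Finset V} (hQ : Clq G Q) : ∃ L, LineC G t L ∧ (Q : Set V) ⊆ L := by
  obtain ⟨B, hQB, hB, hBc⟩ := clq_extend hs hcl hQ (n := Q.card + (2 * t + 3)) (by omega)
  refine ⟨EL G t B, ⟨B, hB, by omega, rfl⟩, ?_⟩
  intro x hx
  exact EL_self hB (hQB hx)

theorem lineC_uniq (hs : SetHomogeneous G)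
    (hcl : ∀ n : ℕ, ∃ A : Finset V, Clq G A ∧ A.card = n) {t : ℕ} (hF : FC G t) {L : Set V}
    (hL : LineC G t L) {Q : Finset V} (hQ : Clq G Q) (hq : 2 * t + 3 ≤ Q.card)
    (h : (Q : Set V) ⊆ L) : L = EL G t Q := by
  classical
  obtain ⟨K1, hK1, hc1, rfl⟩ := hL
  obtain ⟨K2, h12, hK2, hc2⟩ := clq_extend hs hcl hK1
    (n := K1.card + Q.card * (t + 1) + (2 * t + 3)) (by omega)
  rw [EL_mono hF hK2 h12 hc1] at h ⊢
  obtain ⟨K3, h3, hf3, hc3⟩ := EL_common Q h
  have hcl3 : Clq G (K3 ∪ Q) := by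
    intro x hx y hy hxy
    rcases Finset.mem_union.1 hx with hx | hx <;> rcases Finset.mem_union.1 hy with hy | hy
    · exact hK2 x (h3 hx) y (h3 hy) hxy
    · exact (hf3 y hy x hx).symm
    · exact hf3 x hx y hy
    · exact hQ x hx y hy hxy
  rw [← EL_mono hF hK2 h3 (by omega), EL_mono hF hcl3 Finset.subset_union_left (by omega),
    ← EL_mono hF hcl3 Finset.subset_union_right hq]

theorem EL_map1 {t : ℕ} {K : Finset V} (φ : G ≃g G) {v : V} (hv : v ∈ EL G t K) :
    φ v ∈ EL G t (K.map φ.toEquiv.toEmbedding) := by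
  intro T hT hn
  have h1 := hv (T.map φ.symm.toEquiv.toEmbedding) (by
    intro x hx
    obtain ⟨y, hy, rfl⟩ := Finset.mem_map.1 hx
    obtain ⟨z, hz, rfl⟩ := Finset.mem_map.1 (hT hy)
    have : φ.symm.toEquiv.toEmbedding (φ.toEquiv.toEmbedding z) = z := φ.symm_apply_apply z
    rw [this]
    exact hz) (by
    intro x hx
    obtain ⟨y, hy, rfl⟩ := Finset.mem_map.1 hx
    intro hadj
    have h2 := φ.map_adj_iff.2 hadj
    have : φ (φ.symm.toEquiv.toEmbedding y) = y := φ.apply_symm_apply y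
    rw [this] at h2
    exact hn y hy h2)
  rwa [Finset.card_map] at h1

theorem EL_map {t : ℕ} {K : Finset V} (φ : G ≃g G) :
    φ '' EL G t K = EL G t (K.map φ.toEquiv.toEmbedding) := by
  apply Set.Subset.antisymm
  · rintro _ ⟨v, hv, rfl⟩
    exact EL_map1 φ hv
  · intro v hv
    refine ⟨φ.symm v, ?_, φ.apply_symm_apply v⟩
    have h := EL_map1 φ.symm hv
    have h2 : (K.map φ.toEquiv.toEmbedding).map φ.symm.toEquiv.toEmbedding = K := by
      ext x
      constructor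
      · intro hx
        obtain ⟨y, hy, rfl⟩ := Finset.mem_map.1 hx
        obtain ⟨z, hz, rfl⟩ := Finset.mem_map.1 hy
        have : φ.symm.toEquiv.toEmbedding (φ.toEquiv.toEmbedding z) = z := φ.symm_apply_apply z
        rw [this]
        exact hz
      · intro hx
        refine Finset.mem_map.2 ⟨φ x, Finset.mem_map.2 ⟨x, hx, rfl⟩, ?_⟩
        exact φ.symm_apply_apply x
    rwa [h2] at h

theorem lineC_map {t : ℕ} {L : Set V} (hL : LineC G t L) (φ : G ≃g G) :
    LineC G t (φ '' L) := by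
  obtain ⟨K, hK, hc, rfl⟩ := hL
  refine ⟨K.map φ.toEquiv.toEmbedding, ?_, by rwa [Finset.card_map], EL_map φ⟩
  intro x hx y hy hxy
  obtain ⟨x', hx', rfl⟩ := Finset.mem_map.1 hx
  obtain ⟨y', hy', rfl⟩ := Finset.mem_map.1 hy
  exact φ.map_adj_iff.2 (hK x' hx' y' hy' (fun e => hxy (by rw [e])))

theorem lineC_trim (hs : SetHomogeneous G)
    (hcl : ∀ n : ℕ, ∃ A : Finset V, Clq G A ∧ A.card = n) {t : ℕ} (hF : FC G t) {L : Set V}
    (hL : LineC G t L) (P : Finset V) (hP : (P : Set V) ⊆ L) (n : ℕ) :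
    ∃ Q : Finset V, Clq G Q ∧ Q.card = n ∧ (Q : Set V) ⊆ L ∧ Disjoint P Q ∧
      ∀ p ∈ P, Full G p Q := by
  classical
  obtain ⟨K1, hK1, hc1, rfl⟩ := hL
  obtain ⟨K2, h12, hK2, hc2⟩ := clq_extend hs hcl hK1
    (n := K1.card + P.card * (t + 1) + n) (by omega)
  rw [EL_mono hF hK2 h12 hc1] at hP ⊢
  obtain ⟨K3, h3, hf3, hc3⟩ := EL_common P hP
  obtain ⟨Q, hQ, hQc⟩ := Finset.exists_subset_card_eq (s := K3) (n := n) (by omega)
  refine ⟨Q, hK2.mono (hQ.trans h3), hQc, ?_, ?_, ?_⟩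
  · intro x hx
    exact EL_self hK2 (h3 (hQ hx))
  · rw [Finset.disjoint_left]
    intro x hx hx2
    exact G.irrefl (hf3 x hx x (hQ hx2))
  · intro p hp a ha
    exact hf3 p hp a (hQ ha)

end SetHom
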