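import Pool.Agent.Helper74.DI.St

/-! Project DI, module TRG: translators. -/

set_option autoImplicit false

namespace Pool.Agent.Helper34.DI

open Pool.Agent.Helper74 Pool.Agent.Helper74.DI
open Pool.Agent.Helper74.NM (NC)
open Pool.Agent.Helper74.WB (OP)

/-- **TRG.** -/
theorem hTRG : StTRG := by
  intro G S Λ R δ f al h w hw
  induction hw with
  | nil =>
    intro s _
    exact ⟨rfl, OP.nil⟩
  | wrap x y u v hxy _ _ ihu ihv =>
    intro s hal
    obtain ⟨h1, h2⟩ := hal
    rw [al_append] at h2
    obtain ⟨h3, h4⟩ := h2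
    obtain ⟨e1, o1⟩ := ihu (δ s x) h3
    rw [e1] at h4
    obtain ⟨h5, h6⟩ := h4
    obtain ⟨e2, h7⟩ := h s x y hxy h1 h5
    rw [e2] at h6
    obtain ⟨e3, o3⟩ := ihv s h6
    constructor
    · rw [List.foldl_cons, List.foldl_append, List.foldl_cons, e1, e2, e3]
    · have e : out δ f s (x :: (u ++ y :: v)) =
          (f s x ++ (out δ f (δ s x) u ++ f (δ s x) y)) ++ out δ f s v := by
        change f s x ++ out δ f (δ s x) (u ++ y :: v) = _
        rw [out_append, e1]
        change f s x ++ (out δ f (δ s x) u ++ (f (δ s x) y ++ out δ f (δ (δ s x) y) v)) = _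
        rw [e2]
        simp only [List.append_assoc]
      rw [e]
      exact WB.op_append _ _ (h7 _ o1) o3

end Pool.Agent.Helper34.DI
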